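import Pool.Agent.H89.TRI.Lib

/-!
Project TRI, module BARY: barycentric data of a triangle given by its vertices.
-/

open MeasureTheory Set Filter Topology
open scoped Real ContDiff Laplacian

namespace Pool.TRI

namespace BARY

/-- twice the signed area -/
noncomputable def J (A B C : ℂ) : ℝ := (B.re - A.re) * (C.im - A.im) - (B.im - A.im) * (C.re - A.re)

theorem J_ne {A B C : ℂ} (h : AffineIndependent ℝ ![A, B, C]) : J A B C ≠ 0 := by
  intro hJ
  rw [affineIndependent_iff_not_collinear_set] at h
  apply h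
  rw [collinear_iff_of_mem (p₀ := A) (by simp)]
  unfold J at hJ
  by_cases hAB : B = A
  · refine ⟨C - A, ?_⟩
    intro p hp
    simp only [mem_insert_iff, mem_singleton_iff] at hp
    rcases hp with rfl | rfl | rfl
    · exact ⟨0, by simp⟩
    · exact ⟨0, by simp [hAB]⟩
    · exact ⟨1, by simp⟩
  · have hpos : 0 < (B.re - A.re) ^ 2 + (B.im - A.im) ^ 2 := by
      have h1 : 0 ≤ (B.re - A.re) ^ 2 + (B.im - A.im) ^ 2 := by positivity
      rcases h1.eq_or_lt with h2 | h2
      · exfalso
        apply hAB
        have h3 : (B.re - A.re) ^ 2 = 0 := by nlinarith [sq_nonneg (B.re - A.re), sq_nonneg (B.im - A.im)]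
        have h4 : (B.im - A.im) ^ 2 = 0 := by nlinarith [sq_nonneg (B.re - A.re), sq_nonneg (B.im - A.im)]
        have h5 := pow_eq_zero_iff (two_ne_zero) |>.1 h3
        have h6 := pow_eq_zero_iff (two_ne_zero) |>.1 h4
        apply Complex.ext <;> linarith
      · exact h2
    refine ⟨B - A, ?_⟩
    intro p hp
    simp only [mem_insert_iff, mem_singleton_iff] at hp
    rcases hp with rfl | rfl | rfl
    · exact ⟨0, by simp⟩
    · exact ⟨1, by simp⟩
    · refine ⟨((p.re - A.re) * (B.re - A.re) + (p.im - A.im) * (B.im - A.im)) /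
        ((B.re - A.re) ^ 2 + (B.im - A.im) ^ 2), ?_⟩
      apply Complex.ext
      · simp only [vadd_eq_add, Complex.add_re, Complex.real_smul, Complex.mul_re, Complex.ofReal_re,
          Complex.sub_re, Complex.ofReal_im, zero_mul, sub_zero]
        rw [div_mul_eq_mul_div, ← sub_eq_iff_eq_add, eq_div_iff hpos.ne']
        linear_combination (-(B.im - A.im)) * hJ
      · simp only [vadd_eq_add, Complex.add_im, Complex.real_smul, Complex.mul_im, Complex.ofReal_re,
          Complex.sub_im, Complex.ofReal_im, zero_mul, add_zero]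
        rw [div_mul_eq_mul_div, ← sub_eq_iff_eq_add, eq_div_iff hpos.ne']
        linear_combination (B.re - A.re) * hJ

noncomputable def g (A B C : ℂ) : Fin 3 → ℂ :=
  ![⟨(B.im - C.im) / J A B C, (C.re - B.re) / J A B C⟩,
    ⟨(C.im - A.im) / J A B C, (A.re - C.re) / J A B C⟩,
    ⟨(A.im - B.im) / J A B C, (B.re - A.re) / J A B C⟩]

noncomputable def b (A B C : ℂ) : Fin 3 → ℝ :=
  ![(B.re * C.im - C.re * B.im) / J A B C,
    (C.re * A.im - A.re * C.im) / J A B C,
    (A.re * B.im - B.re * A.im) / J A B C]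

/-- the barycentric coordinates -/
noncomputable def X (A B C : ℂ) (k : Fin 3) (z : ℂ) : ℝ :=
  (z * (starRingEnd ℂ) (g A B C k)).re + b A B C k

theorem X_eq (A B C : ℂ) (k : Fin 3) (z : ℂ) :
    X A B C k z = z.re * (g A B C k).re + z.im * (g A B C k).im + b A B C k := by
  simp only [X, Complex.mul_re, Complex.conj_re, Complex.conj_im]
  ring

theorem X0 (A B C : ℂ) (z : ℂ) : X A B C 0 z = (z.re * (B.im - C.im) + z.im * (C.re - B.re) +
    (B.re * C.im - C.re * B.im)) / J A B C := by
  rw [X_eq]
  change z.re * ((B.im - C.im) / J A B C) + z.im * ((C.re - B.re) / J A B C) +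
    (B.re * C.im - C.re * B.im) / J A B C = _
  ring

theorem X1 (A B C : ℂ) (z : ℂ) : X A B C 1 z = (z.re * (C.im - A.im) + z.im * (A.re - C.re) +
    (C.re * A.im - A.re * C.im)) / J A B C := by
  rw [X_eq]
  change z.re * ((C.im - A.im) / J A B C) + z.im * ((A.re - C.re) / J A B C) +
    (C.re * A.im - A.re * C.im) / J A B C = _
  ring

theorem X2 (A B C : ℂ) (z : ℂ) : X A B C 2 z = (z.re * (A.im - B.im) + z.im * (B.re - A.re) +
    (A.re * B.im - B.re * A.im)) / J A B C := by
  rw [X_eq]
  change z.re * ((A.im - B.im) / J A B C) + z.im * ((B.re - A.re) / J A B C) +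
    (A.re * B.im - B.re * A.im) / J A B C = _
  ring

theorem sumX {A B C : ℂ} (h : J A B C ≠ 0) (z : ℂ) :
    X A B C 0 z + X A B C 1 z + X A B C 2 z = 1 := by
  rw [X0, X1, X2, ← add_div, ← add_div, div_eq_one_iff_eq h]
  unfold J
  ring

theorem comb {A B C : ℂ} (h : J A B C ≠ 0) (z : ℂ) :
    X A B C 0 z • A + X A B C 1 z • B + X A B C 2 z • C = z := by
  apply Complex.ext
  · simp only [Complex.add_re, Complex.real_smul, Complex.mul_re, Complex.ofReal_re,
      Complex.ofReal_im, zero_mul, sub_zero]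
    rw [X0, X1, X2]
    field_simp
    unfold J
    ring
  · simp only [Complex.add_im, Complex.real_smul, Complex.mul_im, Complex.ofReal_re,
      Complex.ofReal_im, zero_mul, add_zero]
    rw [X0, X1, X2]
    field_simp
    unfold J
    ring

theorem affX (A B C : ℂ) (k : Fin 3) (z w : ℂ) (s t : ℝ) (hst : s + t = 1) :
    X A B C k (s • z + t • w) = s * X A B C k z + t * X A B C k w := by
  rw [X_eq, X_eq, X_eq]
  simp only [Complex.add_re, Complex.add_im, Complex.real_smul, Complex.mul_re, Complex.mul_im,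
    Complex.ofReal_re, Complex.ofReal_im, zero_mul, sub_zero, add_zero]
  have : b A B C k = (s + t) * b A B C k := by rw [hst, one_mul]
  linear_combination this

theorem contX (A B C : ℂ) (k : Fin 3) : Continuous (X A B C k) := by
  have : X A B C k = fun z : ℂ => z.re * (g A B C k).re + z.im * (g A B C k).im + b A B C k :=
    funext fun z => X_eq A B C k z
  rw [this]
  fun_prop

theorem XA {A B C : ℂ} (h : J A B C ≠ 0) : X A B C 0 A = 1 ∧ X A B C 1 A = 0 ∧ X A B C 2 A = 0 := by
  refine ⟨?_, ?_, ?_⟩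
  · rw [X0, div_eq_one_iff_eq h]
    unfold J
    ring
  · rw [X1, div_eq_zero_iff]
    left
    ring
  · rw [X2, div_eq_zero_iff]
    left
    ring

theorem XB {A B C : ℂ} (h : J A B C ≠ 0) : X A B C 0 B = 0 ∧ X A B C 1 B = 1 ∧ X A B C 2 B = 0 := by
  refine ⟨?_, ?_, ?_⟩
  · rw [X0, div_eq_zero_iff]
    left
    ring
  · rw [X1, div_eq_one_iff_eq h]
    unfold J
    ring
  · rw [X2, div_eq_zero_iff]
    left
    ring

theorem XC {A B C : ℂ} (h : J A B C ≠ 0) : X A B C 0 C = 0 ∧ X A B C 1 C = 0 ∧ X A B C 2 C = 1 := by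
  refine ⟨?_, ?_, ?_⟩
  · rw [X0, div_eq_zero_iff]
    left
    ring
  · rw [X1, div_eq_zero_iff]
    left
    ring
  · rw [X2, div_eq_one_iff_eq h]
    unfold J
    ring

theorem hull {A B C : ℂ} (h : J A B C ≠ 0) :
    convexHull ℝ {A, B, C} = {z | ∀ k, 0 ≤ X A B C k z} := by
  apply Subset.antisymm
  · refine convexHull_min ?_ ?_
    · intro p hp
      simp only [mem_insert_iff, mem_singleton_iff] at hp
      obtain ⟨a0, a1, a2⟩ := XA h
      obtain ⟨b0, b1, b2⟩ := XB h
      obtain ⟨c0, c1, c2⟩ := XC h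
      rcases hp with hp | hp | hp
      · rw [hp]
        intro k
        fin_cases k
        · exact le_of_le_of_eq zero_le_one a0.symm
        · exact a1.symm.le
        · exact a2.symm.le
      · rw [hp]
        intro k
        fin_cases k
        · exact b0.symm.le
        · exact le_of_le_of_eq zero_le_one b1.symm
        · exact b2.symm.le
      · rw [hp]
        intro k
        fin_cases k
        · exact c0.symm.le
        · exact c1.symm.le
        · exact le_of_le_of_eq zero_le_one c2.symm
    · intro z hz w hw s t hs ht hst k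
      rw [affX A B C k z w s t hst]
      exact add_nonneg (mul_nonneg hs (hz k)) (mul_nonneg ht (hw k))
  · intro z hz
    have h1 := (convex_convexHull ℝ ({A, B, C} : Set ℂ)).sum_mem (t := Finset.univ)
      (w := fun k : Fin 3 => X A B C k z) (z := ![A, B, C]) (fun k _ => hz k) ?_ ?_
    · rw [Fin.sum_univ_three] at h1
      have h2 := comb h z
      simp only [Matrix.cons_val_zero, Matrix.cons_val_one, Matrix.cons_val] at h1
      rw [h2] at h1
      exact h1
    · rw [Fin.sum_univ_three]
      exact sumX h z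
    · intro k _
      apply subset_convexHull
      fin_cases k <;> simp

theorem gne {A B C : ℂ} (h : J A B C ≠ 0) (k : Fin 3) :
    0 < (g A B C k).re ^ 2 + (g A B C k).im ^ 2 := by
  have hx : ∃ p q : ℂ, X A B C k p = 1 ∧ X A B C k q = 0 := by
    obtain ⟨a0, a1, a2⟩ := XA h
    obtain ⟨b0, b1, b2⟩ := XB h
    obtain ⟨c0, c1, c2⟩ := XC h
    fin_cases k
    · exact ⟨A, B, a0, b0⟩
    · exact ⟨B, A, b1, a1⟩
    · exact ⟨C, A, c2, a2⟩
  obtain ⟨p, q, hp, hq⟩ := hx
  have h1 : 0 ≤ (g A B C k).re ^ 2 + (g A B C k).im ^ 2 := by positivity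
  rcases h1.eq_or_lt with h2 | h2
  · exfalso
    have h3 : (g A B C k).re ^ 2 = 0 := by
      nlinarith [sq_nonneg (g A B C k).re, sq_nonneg (g A B C k).im]
    have h4 : (g A B C k).im ^ 2 = 0 := by
      nlinarith [sq_nonneg (g A B C k).re, sq_nonneg (g A B C k).im]
    have h5 := (pow_eq_zero_iff (two_ne_zero)).1 h3
    have h6 := (pow_eq_zero_iff (two_ne_zero)).1 h4
    rw [X_eq, h5, h6] at hp hq
    simp at hp hq
    rw [hq] at hp
    norm_num at hp
  · exact h2

theorem inter {A B C : ℂ} (h : J A B C ≠ 0) (z : ℂ) :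
    z ∈ tri A B C ↔ ∀ k, 0 < X A B C k z := by
  unfold tri
  rw [hull h]
  constructor
  · intro hz k
    by_contra hk
    push Not at hk
    have h1 : Continuous (fun t : ℝ => z - t • g A B C k) := by fun_prop
    have h2 := h1.tendsto 0
    simp only [zero_smul, sub_zero] at h2
    have h3 : ∀ᶠ t in 𝓝 (0 : ℝ), z - t • g A B C k ∈ interior {z | ∀ k, 0 ≤ X A B C k z} :=
      h2 (isOpen_interior.mem_nhds hz)
    obtain ⟨ε, hε, h4⟩ := Metric.eventually_nhds_iff.1 h3
    have h5 := h4 (y := ε / 2) (by
      rw [Real.dist_eq, sub_zero, abs_of_pos (by positivity)]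
      linarith)
    have h6 := interior_subset h5 k
    have h7 : X A B C k (z - (ε / 2) • g A B C k) =
        X A B C k z - ε / 2 * ((g A B C k).re ^ 2 + (g A B C k).im ^ 2) := by
      rw [X_eq, X_eq]
      simp only [Complex.sub_re, Complex.sub_im, Complex.real_smul, Complex.mul_re,
        Complex.mul_im, Complex.ofReal_re, Complex.ofReal_im, zero_mul, sub_zero, add_zero]
      ring
    rw [h7] at h6
    have h8 := mul_pos (by positivity : 0 < ε / 2) (gne h k)
    linarith
  · intro hz
    have hopen : IsOpen (⋂ k : Fin 3, {z | 0 < X A B C k z}) :=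
      isOpen_iInter_of_finite fun k => isOpen_lt continuous_const (contX A B C k)
    refine interior_maximal (t := ⋂ k : Fin 3, {z | 0 < X A B C k z}) ?_ hopen ?_
    · intro w hw k
      rw [mem_iInter] at hw
      exact (hw k).le
    · rw [mem_iInter]
      exact hz

end BARY

open BARY in
/-- BARY -/
theorem bary : BaryStmt := by
  intro A B C hABC
  have h := J_ne hABC
  have hs := sumX h
  refine ⟨{ g := BARY.g A B C, b := BARY.b A B C, sum_g := ?_, sum_b := ?_, indep := ?_,
            mem_iff := fun z => inter h z }, ?_⟩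
  · simp only [BARY.g, Matrix.cons_val_zero, Matrix.cons_val_one, Matrix.cons_val]
    apply Complex.ext
    · simp only [Complex.add_re, Complex.zero_re]
      ring
    · simp only [Complex.add_im, Complex.zero_im]
      ring
  · simp only [BARY.b, Matrix.cons_val_zero, Matrix.cons_val_one, Matrix.cons_val]
    rw [← add_div, ← add_div, div_eq_one_iff_eq h]
    unfold J
    ring
  · simp only [BARY.g, Matrix.cons_val_zero, Matrix.cons_val_one, Complex.mul_im, Complex.conj_re,
      Complex.conj_im]
    have h1 : (B.im - C.im) / J A B C * -((A.re - C.re) / J A B C) +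
        (C.re - B.re) / J A B C * ((C.im - A.im) / J A B C) = -1 / J A B C := by
      field_simp
      unfold J
      ring
    rw [h1]
    exact div_ne_zero (by norm_num) h
  · obtain ⟨a0, a1, a2⟩ := XA h
    obtain ⟨b0, b1, b2⟩ := XB h
    obtain ⟨c0, c1, c2⟩ := XC h
    exact ⟨a0, b1, c2, b0, c0, a1, c1, a2, b2⟩

end Pool.TRI
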