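import Pool.Agent.H89.TRI.Lib

/-!
Project TRI, module BAS: facts on a triangle given by barycentric data.
-/

open MeasureTheory Set Filter Topology
open scoped Real ContDiff Laplacian

namespace Pool.TRI

namespace BAS

theorem x_eq {T : Set ℂ} (B : Bary T) (k : Fin 3) (z : ℂ) :
    B.x k z = z.re * (B.g k).re + z.im * (B.g k).im + B.b k := by
  simp only [Bary.x, Complex.mul_re, Complex.conj_re, Complex.conj_im]
  ring

theorem dot_eq (a b : ℂ) : (a * (starRingEnd ℂ) b).re = a.re * b.re + a.im * b.im := by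
  simp only [Complex.mul_re, Complex.conj_re, Complex.conj_im]
  ring

theorem crs_eq (a b : ℂ) : (a * (starRingEnd ℂ) b).im = a.im * b.re - a.re * b.im := by
  simp only [Complex.mul_im, Complex.conj_re, Complex.conj_im]
  ring

theorem norm_eq (a : ℂ) : ‖a‖ ^ 2 = a.re ^ 2 + a.im ^ 2 := by
  rw [← Complex.normSq_eq_norm_sq, Complex.normSq_apply]
  ring

theorem g2_re {T : Set ℂ} (B : Bary T) : (B.g 2).re = -(B.g 0).re - (B.g 1).re := by
  have := congrArg Complex.re B.sum_g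
  simp only [Complex.add_re, Complex.zero_re] at this
  linarith

theorem g2_im {T : Set ℂ} (B : Bary T) : (B.g 2).im = -(B.g 0).im - (B.g 1).im := by
  have := congrArg Complex.im B.sum_g
  simp only [Complex.add_im, Complex.zero_im] at this
  linarith

theorem b2 {T : Set ℂ} (B : Bary T) : B.b 2 = 1 - B.b 0 - B.b 1 := by
  have := B.sum_b
  linarith

/-- the inverse of the barycentric coordinates -/
noncomputable def inv {T : Set ℂ} (B : Bary T) (y : ℝ × ℝ) : ℂ :=
  ⟨((y.1 - B.b 0) * (B.g 1).im - (y.2 - B.b 1) * (B.g 0).im) /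
      ((B.g 0).re * (B.g 1).im - (B.g 0).im * (B.g 1).re),
    ((B.g 0).re * (y.2 - B.b 1) - (B.g 1).re * (y.1 - B.b 0)) /
      ((B.g 0).re * (B.g 1).im - (B.g 0).im * (B.g 1).re)⟩

theorem det_ne {T : Set ℂ} (B : Bary T) :
    (B.g 0).re * (B.g 1).im - (B.g 0).im * (B.g 1).re ≠ 0 := by
  have := B.indep
  rw [crs_eq] at this
  intro h
  apply this
  linarith

theorem x0_inv {T : Set ℂ} (B : Bary T) (y : ℝ × ℝ) : B.x 0 (inv B y) = y.1 := by
  rw [x_eq]
  have := det_ne B
  simp only [inv]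
  obtain ⟨D, hD⟩ : ∃ D, D = (B.g 0).re * (B.g 1).im - (B.g 0).im * (B.g 1).re := ⟨_, rfl⟩
  rw [← hD] at this ⊢
  field_simp
  rw [hD]
  ring

theorem x1_inv {T : Set ℂ} (B : Bary T) (y : ℝ × ℝ) : B.x 1 (inv B y) = y.2 := by
  rw [x_eq]
  have := det_ne B
  simp only [inv]
  obtain ⟨D, hD⟩ : ∃ D, D = (B.g 0).re * (B.g 1).im - (B.g 0).im * (B.g 1).re := ⟨_, rfl⟩
  rw [← hD] at this ⊢
  field_simp
  rw [hD]
  ring

theorem sum_x {T : Set ℂ} (B : Bary T) (z : ℂ) : B.x 0 z + B.x 1 z + B.x 2 z = 1 := by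
  rw [x_eq, x_eq, x_eq, g2_re, g2_im, b2]
  ring

theorem inv_x {T : Set ℂ} (B : Bary T) (z : ℂ) : inv B (B.x 0 z, B.x 1 z) = z := by
  have := det_ne B
  obtain ⟨D, hD⟩ : ∃ D, D = (B.g 0).re * (B.g 1).im - (B.g 0).im * (B.g 1).re := ⟨_, rfl⟩
  rw [← hD] at this
  apply Complex.ext
  · simp only [inv, x_eq]
    rw [← hD, div_eq_iff this, hD]
    ring
  · simp only [inv, x_eq]
    rw [← hD, div_eq_iff this, hD]
    ring

theorem cont_x {T : Set ℂ} (B : Bary T) (k : Fin 3) : Continuous (B.x k) := by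
  have : B.x k = fun z : ℂ => z.re * (B.g k).re + z.im * (B.g k).im + B.b k :=
    funext fun z => x_eq B k z
  rw [this]
  fun_prop

theorem aff_x {T : Set ℂ} (B : Bary T) (k : Fin 3) (z w : ℂ) (a b : ℝ) (hab : a + b = 1) :
    B.x k (a • z + b • w) = a * B.x k z + b * B.x k w := by
  rw [x_eq, x_eq, x_eq]
  simp only [Complex.add_re, Complex.add_im, Complex.real_smul, Complex.mul_re, Complex.mul_im,
    Complex.ofReal_re, Complex.ofReal_im, zero_mul, sub_zero, add_zero]
  have : B.b k = (a + b) * B.b k := by rw [hab, one_mul]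
  linear_combination this

theorem surj {T : Set ℂ} (B : Bary T) (y : Fin 3 → ℝ) (hy : y 0 + y 1 + y 2 = 1) :
    ∃ z, ∀ k, B.x k z = y k := by
  refine ⟨inv B (y 0, y 1), ?_⟩
  have h0 := x0_inv B (y 0, y 1)
  have h1 := x1_inv B (y 0, y 1)
  have h2 := sum_x B (inv B (y 0, y 1))
  intro k
  fin_cases k
  · exact h0
  · exact h1
  · change B.x 2 _ = y 2
    simp only at h0 h1
    linarith

theorem mem_T {T : Set ℂ} (B : Bary T) (z : ℂ) : z ∈ T ↔ ∀ k, 0 < B.x k z := B.mem_iff z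

theorem open_T {T : Set ℂ} (B : Bary T) : IsOpen T := by
  have : T = ⋂ k : Fin 3, {z | 0 < B.x k z} := by
    ext z
    rw [mem_iInter]
    exact mem_T B z
  rw [this]
  exact isOpen_iInter_of_finite fun k => isOpen_lt continuous_const (cont_x B k)

theorem closure_T {T : Set ℂ} (B : Bary T) (z : ℂ) : z ∈ closure T ↔ ∀ k, 0 ≤ B.x k z := by
  constructor
  · intro hz
    have hcl : IsClosed (⋂ k : Fin 3, {z | 0 ≤ B.x k z}) :=
      isClosed_iInter fun k => isClosed_le continuous_const (cont_x B k)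
    have hsub : T ⊆ ⋂ k : Fin 3, {z | 0 ≤ B.x k z} := by
      intro w hw
      rw [mem_iInter]
      intro k
      exact ((mem_T B w).1 hw k).le
    have := closure_minimal hsub hcl hz
    rw [mem_iInter] at this
    exact this
  · intro hz
    obtain ⟨c, hc⟩ := surj B (fun _ => 1 / 3) (by norm_num)
    have h1 : Tendsto (fun t : ℝ => (1 - t) • z + t • c) (𝓝[>] 0) (𝓝 z) := by
      have h2 : Continuous (fun t : ℝ => (1 - t) • z + t • c) := by fun_prop
      have h3 := h2.tendsto 0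
      simp only [sub_zero, one_smul, zero_smul, add_zero] at h3
      exact h3.mono_left nhdsWithin_le_nhds
    refine mem_closure_of_tendsto h1 ?_
    have h4 : Ioo (0 : ℝ) 1 ∈ 𝓝[>] (0 : ℝ) := Ioo_mem_nhdsGT one_pos
    filter_upwards [h4] with t ht
    rw [mem_T B]
    intro k
    rw [aff_x B k _ _ _ _ (by ring), hc k]
    have := hz k
    have h5 : 0 ≤ (1 - t) * B.x k z := mul_nonneg (by linarith [ht.2]) this
    have h6 : 0 < t * (1 / 3) := mul_pos ht.1 (by norm_num)
    linarith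

theorem bounded_T {T : Set ℂ} (B : Bary T) : Bornology.IsBounded T := by
  have hcont : Continuous (inv B) := by
    have h1 : inv B = fun y : ℝ × ℝ =>
      (((((y.1 - B.b 0) * (B.g 1).im - (y.2 - B.b 1) * (B.g 0).im) /
      ((B.g 0).re * (B.g 1).im - (B.g 0).im * (B.g 1).re) : ℝ) : ℂ) +
      ((((B.g 0).re * (y.2 - B.b 1) - (B.g 1).re * (y.1 - B.b 0)) /
      ((B.g 0).re * (B.g 1).im - (B.g 0).im * (B.g 1).re) : ℝ) : ℂ) * Complex.I) := by
      funext y
      exact Complex.mk_eq_add_mul_I _ _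
    rw [h1]
    fun_prop
  have hcomp : IsCompact (Icc (0 : ℝ) 1 ×ˢ Icc (0 : ℝ) 1) := isCompact_Icc.prod isCompact_Icc
  refine (hcomp.image hcont).isBounded.subset ?_
  intro z hz
  have h := (mem_T B z).1 hz
  have hs := sum_x B z
  have h0 := h 0
  have h1 := h 1
  have h2 := h 2
  refine ⟨(B.x 0 z, B.x 1 z), ⟨⟨h0.le, by linarith⟩, ⟨h1.le, by linarith⟩⟩, inv_x B z⟩

theorem convex_T {T : Set ℂ} (B : Bary T) : Convex ℝ T := by
  intro z hz w hw a b ha hb hab
  rw [mem_T B] at *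
  intro k
  rw [aff_x B k z w a b hab]
  rcases ha.eq_or_lt with h | h
  · have : b = 1 := by linarith
    rw [← h, this]
    have := hw k
    linarith
  · have h1 : 0 < a * B.x k z := mul_pos h (hz k)
    have h2 : 0 ≤ b * B.x k w := mul_nonneg hb (hw k).le
    linarith

theorem c0 {T : Set ℂ} (B : Bary T) :
    B.c 0 = -((B.g 1).re * (B.g 2).re + (B.g 1).im * (B.g 2).im) := by
  have : B.c 0 = -(B.g 1 * (starRingEnd ℂ) (B.g 2)).re := rfl
  rw [this, dot_eq]

theorem c1 {T : Set ℂ} (B : Bary T) :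
    B.c 1 = -((B.g 2).re * (B.g 0).re + (B.g 2).im * (B.g 0).im) := by
  have : B.c 1 = -(B.g 2 * (starRingEnd ℂ) (B.g 0)).re := rfl
  rw [this, dot_eq]

theorem c2 {T : Set ℂ} (B : Bary T) :
    B.c 2 = -((B.g 0).re * (B.g 1).re + (B.g 0).im * (B.g 1).im) := by
  have : B.c 2 = -(B.g 0 * (starRingEnd ℂ) (B.g 1)).re := rfl
  rw [this, dot_eq]

theorem norm_g {T : Set ℂ} (B : Bary T) (k : Fin 3) :
    ‖B.g k‖ ^ 2 = B.c (k + 1) + B.c (k + 2) := by
  rw [norm_eq]
  fin_cases k
  · change (B.g 0).re ^ 2 + (B.g 0).im ^ 2 = B.c 1 + B.c 2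
    rw [c1, c2, g2_re, g2_im]
    ring
  · change (B.g 1).re ^ 2 + (B.g 1).im ^ 2 = B.c 2 + B.c 0
    rw [c2, c0, g2_re, g2_im]
    ring
  · change (B.g 2).re ^ 2 + (B.g 2).im ^ 2 = B.c 0 + B.c 1
    rw [c0, c1, g2_re, g2_im]
    ring

theorem g_ne {T : Set ℂ} (B : Bary T) (k : Fin 3) : B.g k ≠ 0 := by
  have hd := det_ne B
  intro h
  have hre := congrArg Complex.re h
  have him := congrArg Complex.im h
  simp only [Complex.zero_re, Complex.zero_im] at hre him
  fin_cases k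
  · change (B.g 0).re = 0 at hre
    change (B.g 0).im = 0 at him
    apply hd
    rw [hre, him]
    ring
  · change (B.g 1).re = 0 at hre
    change (B.g 1).im = 0 at him
    apply hd
    rw [hre, him]
    ring
  · change (B.g 2).re = 0 at hre
    change (B.g 2).im = 0 at him
    rw [g2_re] at hre
    rw [g2_im] at him
    apply hd
    have e1 : (B.g 1).re = -(B.g 0).re := by linarith
    have e2 : (B.g 1).im = -(B.g 0).im := by linarith
    rw [e1, e2]
    ring

end BAS

open BAS in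
/-- BAS -/
theorem bas : BASStmt := by
  intro T B
  have hn : ∀ k, 0 < ‖B.g k‖ ^ 2 := fun k => by
    have := norm_pos_iff.2 (g_ne B k)
    positivity
  refine ⟨open_T B, bounded_T B, ?_, convex_T B, sum_x B, mem_T B, closure_T B, ?_, surj B, norm_g B,
    ?_, ?_, ?_, ?_, ?_⟩
  · obtain ⟨c, hc⟩ := surj B (fun _ => 1 / 3) (by norm_num)
    refine ⟨c, (mem_T B c).2 fun k => ?_⟩
    rw [hc k]
    norm_num
  · intro z
    rw [(open_T B).frontier_eq, Set.mem_sdiff, closure_T B, mem_T B]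
    constructor
    · rintro ⟨h1, h2⟩
      refine ⟨h1, ?_⟩
      push Not at h2
      obtain ⟨k, hk⟩ := h2
      exact ⟨k, le_antisymm hk (h1 k)⟩
    · rintro ⟨h1, k, hk⟩
      refine ⟨h1, fun h2 => ?_⟩
      have := h2 k
      linarith
  · intro k
    refine ⟨g_ne B _, ?_⟩
    simp only [Bary.c, neg_neg]
  · have h : B.c 0 * B.c 1 + B.c 1 * B.c 2 + B.c 2 * B.c 0 =
        ((B.g 0).re * (B.g 1).im - (B.g 0).im * (B.g 1).re) ^ 2 := by
      rw [c0, c1, c2, g2_re, g2_im]
      ring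
    rw [h]
    exact sq_pos_of_ne_zero (det_ne B)
  · have := norm_g B 2
    have h2 := hn 2
    rw [this] at h2
    exact h2
  · have := norm_g B 0
    have h2 := hn 0
    rw [this] at h2
    exact h2
  · have := norm_g B 1
    have h2 := hn 1
    rw [this] at h2
    exact h2

end Pool.TRI
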